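import Mathlib

set_option autoImplicit false

namespace Pool.Agent.Y420

open Finset Equiv

/-- The number of permutations fixing every point of `s`. -/
theorem card_fix {α : Type*} [Fintype α] [DecidableEq α] (s : Finset α) :
    (univ.filter (fun σ : Perm α => ∀ a ∈ s, σ a = a)).card
      = (Fintype.card α - s.card).factorial := by
  classical
  have e := Equiv.Perm.subtypeEquivSubtypePerm (fun a : α => a ∉ s)
  have h1 := Fintype.card_congr e
  rw [Fintype.card_perm, Fintype.card_subtype_compl, Fintype.card_coe] at h1
  rw [h1, Fintype.card_subtype]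
  congr 1
  ext σ
  simp

/-- The number of permutations agreeing with a given one on `s`. -/
theorem card_agree_eq {α : Type*} [Fintype α] [DecidableEq α] (s : Finset α) (σ₀ : Perm α) :
    (univ.filter (fun σ : Perm α => ∀ a ∈ s, σ a = σ₀ a)).card
      = (Fintype.card α - s.card).factorial := by
  classical
  rw [← card_fix s]
  refine Finset.card_bij (fun σ _ => σ₀⁻¹ * σ) ?_ ?_ ?_
  · intro σ hσ
    simp only [mem_filter, mem_univ, true_and] at hσ ⊢
    intro a ha
    rw [Perm.mul_apply, hσ a ha]; simp
  · intro σ _ τ _ h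
    exact mul_left_cancel h
  · intro σ hσ
    simp only [mem_filter, mem_univ, true_and] at hσ
    refine ⟨σ₀ * σ, ?_, by simp⟩
    simp only [mem_filter, mem_univ, true_and]
    intro a ha
    rw [Perm.mul_apply, hσ a ha]

theorem card_agree_le {α : Type*} [Fintype α] [DecidableEq α] (s : Finset α) (f : α → α) :
    (univ.filter (fun σ : Perm α => ∀ a ∈ s, σ a = f a)).card
      ≤ (Fintype.card α - s.card).factorial := by
  classical
  rcases (univ.filter (fun σ : Perm α => ∀ a ∈ s, σ a = f a)).eq_empty_or_nonempty with h | ⟨σ₀, h⟩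
  · rw [h]; simp
  · rw [← card_agree_eq s σ₀]
    simp only [mem_filter, mem_univ, true_and] at h
    refine Finset.card_le_card ?_
    intro σ hσ
    simp only [mem_filter, mem_univ, true_and] at hσ ⊢
    intro a ha
    rw [hσ a ha, h a ha]

/-- One prescribed value. -/
theorem card_one {n : ℕ} (i j : Fin (n + 1)) :
    (univ.filter (fun σ : Perm (Fin (n + 1)) => σ i = j)).card = n.factorial := by
  have h := card_agree_eq ({i} : Finset (Fin (n + 1))) (Equiv.swap i j)
  simpa using h

/-- Two prescribed values. -/
theorem card_two {n : ℕ} {t u i j : Fin (n + 2)} (hi : i ≠ t) (hj : j ≠ u) :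
    (univ.filter (fun σ : Perm (Fin (n + 2)) => σ t = u ∧ σ i = j)).card = n.factorial := by
  classical
  -- a permutation with the prescribed values
  obtain ⟨σ₀, h1, h2⟩ : ∃ σ₀ : Perm (Fin (n + 2)), σ₀ t = u ∧ σ₀ i = j := by
    refine ⟨Equiv.swap (Equiv.swap t u i) j * Equiv.swap t u, ?_, ?_⟩
    · rw [Perm.mul_apply, Equiv.swap_apply_left]
      apply Equiv.swap_apply_of_ne_of_ne
      · intro h
        apply hi
        have : Equiv.swap t u t = Equiv.swap t u i := by rw [Equiv.swap_apply_left]; exact h
        exact ((Equiv.swap t u).injective this).symm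
      · exact fun h => hj h.symm
    · rw [Perm.mul_apply, Equiv.swap_apply_left]
  have h := card_agree_eq ({t, i} : Finset (Fin (n + 2))) σ₀
  rw [Finset.card_pair (Ne.symm hi)] at h
  simpa [h1, h2] using h

/-- Three prescribed values. -/
theorem card_three_le {n : ℕ} {t u i j k l : Fin (n + 3)} (hi : i ≠ t) (hk : k ≠ t) (hik : i ≠ k) :
    (univ.filter (fun σ : Perm (Fin (n + 3)) => σ t = u ∧ σ i = j ∧ σ k = l)).card
      ≤ n.factorial := by
  classical
  have h := card_agree_le ({t, i, k} : Finset (Fin (n + 3)))
    (fun a => if a = t then u else if a = i then j else l)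
  have hc : ({t, i, k} : Finset (Fin (n + 3))).card = 3 := by
    rw [Finset.card_eq_three]
    exact ⟨t, i, k, Ne.symm hi, Ne.symm hk, hik, rfl⟩
  rw [hc] at h
  simpa [hi, hk, Ne.symm hik, hik] using h

end Pool.Agent.Y420
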