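import Mathlib
import Pool.Agent.Y420.PermCount

set_option autoImplicit false

namespace Pool.Agent.Y420

open Finset Equiv

/-- The condition defining the complement of the counterexample. -/
def Cnd (m : ℕ) (σ : Perm (Fin (m + 2))) : Prop :=
  σ 0 = 0 ∨ σ 1 = 1 ∨ (σ 0 = 1 ∧ σ 1 = 0)

instance (m : ℕ) : DecidablePred (Cnd m) := fun σ => by unfold Cnd; infer_instance

/-- The counterexample. -/
def cex (m : ℕ) : Finset (Perm (Fin (m + 2))) := univ.filter (fun σ => ¬ Cnd m σ)

theorem mem_cex {m : ℕ} {σ : Perm (Fin (m + 2))} : σ ∈ cex m ↔ ¬ Cnd m σ := by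
  simp [cex]

theorem zero_ne_one' (m : ℕ) : (0 : Fin (m + 2)) ≠ 1 := by
  intro h
  have := congrArg Fin.val h
  simp at this

theorem card_Cnd (m : ℕ) :
    (univ.filter (fun σ : Perm (Fin (m + 2)) => Cnd m σ)).card = 2 * (m + 1).factorial := by
  have h01 := zero_ne_one' m
  have e : univ.filter (fun σ : Perm (Fin (m + 2)) => Cnd m σ)
      = (univ.filter (fun σ : Perm (Fin (m + 2)) => σ 0 = 0)
          ∪ univ.filter (fun σ : Perm (Fin (m + 2)) => σ 1 = 1))
        ∪ univ.filter (fun σ : Perm (Fin (m + 2)) => σ 0 = 1 ∧ σ 1 = 0) := by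
    ext σ
    simp only [Cnd, mem_filter, mem_univ, true_and, mem_union]
    tauto
  have h1 : (univ.filter (fun σ : Perm (Fin (m + 2)) => σ 0 = 0)).card = (m + 1).factorial :=
    card_one (n := m + 1) 0 0
  have h2 : (univ.filter (fun σ : Perm (Fin (m + 2)) => σ 1 = 1)).card = (m + 1).factorial :=
    card_one (n := m + 1) 1 1
  have h3 : (univ.filter (fun σ : Perm (Fin (m + 2)) => σ 0 = 0 ∧ σ 1 = 1)).card = m.factorial :=
    card_two (n := m) (t := 0) (u := 0) (i := 1) (j := 1) h01.symm h01.symm
  have h4 : (univ.filter (fun σ : Perm (Fin (m + 2)) => σ 0 = 1 ∧ σ 1 = 0)).card = m.factorial :=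
    card_two (n := m) (t := 0) (u := 1) (i := 1) (j := 0) h01.symm h01
  have h5 := Finset.card_union_add_card_inter
    (univ.filter (fun σ : Perm (Fin (m + 2)) => σ 0 = 0))
    (univ.filter (fun σ : Perm (Fin (m + 2)) => σ 1 = 1))
  have e2 : univ.filter (fun σ : Perm (Fin (m + 2)) => σ 0 = 0)
      ∩ univ.filter (fun σ : Perm (Fin (m + 2)) => σ 1 = 1)
      = univ.filter (fun σ : Perm (Fin (m + 2)) => σ 0 = 0 ∧ σ 1 = 1) := by
    ext σ; simp
  have hd : Disjoint (univ.filter (fun σ : Perm (Fin (m + 2)) => σ 0 = 0)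
          ∪ univ.filter (fun σ : Perm (Fin (m + 2)) => σ 1 = 1))
        (univ.filter (fun σ : Perm (Fin (m + 2)) => σ 0 = 1 ∧ σ 1 = 0)) := by
    rw [Finset.disjoint_left]
    intro σ hσ hσ'
    simp only [mem_filter, mem_univ, true_and, mem_union] at hσ hσ'
    rcases hσ with h | h
    · exact h01 (h.symm.trans hσ'.1)
    · exact h01 (hσ'.2.symm.trans h)
  rw [e2, h3, h1, h2] at h5
  rw [e, Finset.card_union_of_disjoint hd, h4]
  omega

theorem card_cex (m : ℕ) : (cex m).card = m * (m + 1).factorial := by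
  have h := Finset.card_filter_add_card_filter_not
    (s := (univ : Finset (Perm (Fin (m + 2))))) (p := fun σ => Cnd m σ)
  rw [card_Cnd, Finset.card_univ, Fintype.card_perm, Fintype.card_fin, Nat.factorial_succ (m + 1)] at h
  have h2 : (m + 1 + 1) * (m + 1).factorial = m * (m + 1).factorial + 2 * (m + 1).factorial := by ring
  rw [h2] at h
  unfold cex
  omega

/-- The swaps leading out of the counterexample. -/
theorem swaps_out (m : ℕ) (σ : Perm (Fin (m + 2))) (hσ : σ ∈ cex m) :
    ((univ.filter (fun p : Fin (m + 2) × Fin (m + 2) => p.1 < p.2)).filter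
      (fun p => σ * Equiv.swap p.1 p.2 ∉ cex m)).card
      ≤ 2 + (if σ 1 = 0 ∨ σ 0 = 1 then 1 else 0) := by
  have h01 := zero_ne_one' m
  rw [mem_cex] at hσ
  unfold Cnd at hσ
  push Not at hσ
  obtain ⟨ha, hb, hc⟩ := hσ
  set k0 : Fin (m + 2) := if σ 1 = 0 then σ.symm 1 else σ.symm 0 with hk0
  set k1 : Fin (m + 2) := if σ 0 = 1 then σ.symm 0 else σ.symm 1 with hk1
  have key : ((univ.filter (fun p : Fin (m + 2) × Fin (m + 2) => p.1 < p.2)).filter
      (fun p => σ * Equiv.swap p.1 p.2 ∉ cex m)) ⊆
      ({(0, k0), (1, k1)} : Finset (Fin (m + 2) × Fin (m + 2))) ∪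
        (if σ 1 = 0 ∨ σ 0 = 1 then {((0 : Fin (m + 2)), (1 : Fin (m + 2)))} else ∅) := by
    rintro ⟨i, j⟩ hp
    simp only [mem_filter, mem_univ, true_and, mem_cex, not_not, Cnd, Perm.mul_apply] at hp
    obtain ⟨hij, hp⟩ := hp
    have hij' : i ≠ j := hij.ne
    have hj0 : j ≠ 0 := by
      intro h; rw [h] at hij; exact absurd hij (Fin.not_lt_zero i)
    by_cases hi0 : i = 0
    · subst hi0
      by_cases hj1 : j = 1
      · subst hj1
        rw [Equiv.swap_apply_left, Equiv.swap_apply_right] at hp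
        have : σ 1 = 0 ∨ σ 0 = 1 := by
          rcases hp with h | h | h
          · exact Or.inl h
          · exact Or.inr h
          · exact absurd h.2 ha
        rw [if_pos this]
        simp
      · have h1 : Equiv.swap (0 : Fin (m + 2)) j 1 = 1 :=
          Equiv.swap_apply_of_ne_of_ne h01.symm (Ne.symm hj1)
        rw [Equiv.swap_apply_left, h1] at hp
        have : j = k0 := by
          rw [hk0]
          by_cases h10 : σ 1 = 0
          · rw [if_pos h10]
            rcases hp with h | h | h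
            · exact absurd (σ.injective (h.trans h10.symm)) hj1
            · exact absurd h hb
            · rw [← h.1, Equiv.symm_apply_apply]
          · rw [if_neg h10]
            rcases hp with h | h | h
            · rw [← h, Equiv.symm_apply_apply]
            · exact absurd h hb
            · exact absurd h.2 h10
        simp [this]
    · by_cases hi1 : i = 1
      · subst hi1
        have h0 : Equiv.swap (1 : Fin (m + 2)) j 0 = 0 :=
          Equiv.swap_apply_of_ne_of_ne h01 (Ne.symm hj0)
        rw [Equiv.swap_apply_left, h0] at hp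
        have : j = k1 := by
          rw [hk1]
          by_cases h10 : σ 0 = 1
          · rw [if_pos h10]
            rcases hp with h | h | h
            · exact absurd h ha
            · exact absurd (σ.injective (h.trans h10.symm)) hj0
            · rw [← h.2, Equiv.symm_apply_apply]
          · rw [if_neg h10]
            rcases hp with h | h | h
            · exact absurd h ha
            · rw [← h, Equiv.symm_apply_apply]
            · exact absurd h.1 h10
        simp [this]
      · exfalso
        have hj1 : j ≠ 1 := by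
          intro h
          rw [h, Fin.lt_def] at hij
          apply hi0
          ext
          simp only [Fin.val_one, Fin.val_zero] at hij ⊢
          omega
        rw [Equiv.swap_apply_of_ne_of_ne (Ne.symm hi0) (Ne.symm hj0),
          Equiv.swap_apply_of_ne_of_ne (Ne.symm hi1) (Ne.symm hj1)] at hp
        rcases hp with h | h | h
        · exact ha h
        · exact hb h
        · exact hc h.1 h.2
  refine (Finset.card_le_card key).trans ((Finset.card_union_le _ _).trans ?_)
  gcongr
  · exact Finset.card_le_two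
  · split_ifs <;> simp

/-- Upper bound for the edge boundary of the counterexample. -/
theorem boundary_le (m : ℕ) :
    (((cex m) ×ˢ (univ.filter (fun p : Fin (m + 2) × Fin (m + 2) => p.1 < p.2))).filter
      (fun x => x.1 * Equiv.swap x.2.1 x.2.2 ∉ cex m)).card
      ≤ 2 * (m * (m + 1).factorial) + 2 * (m + 1).factorial := by
  have h1 : (((cex m) ×ˢ (univ.filter (fun p : Fin (m + 2) × Fin (m + 2) => p.1 < p.2))).filter
      (fun x => x.1 * Equiv.swap x.2.1 x.2.2 ∉ cex m)).card
      = ∑ σ ∈ cex m, ((univ.filter (fun p : Fin (m + 2) × Fin (m + 2) => p.1 < p.2)).filter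
      (fun p => σ * Equiv.swap p.1 p.2 ∉ cex m)).card := by
    rw [Finset.card_filter, Finset.sum_product]
    refine Finset.sum_congr rfl fun σ _ => ?_
    rw [Finset.card_filter]
  rw [h1]
  calc ∑ σ ∈ cex m, ((univ.filter (fun p : Fin (m + 2) × Fin (m + 2) => p.1 < p.2)).filter
      (fun p => σ * Equiv.swap p.1 p.2 ∉ cex m)).card
      ≤ ∑ σ ∈ cex m, (2 + (if σ 1 = 0 ∨ σ 0 = 1 then 1 else 0)) :=
        Finset.sum_le_sum fun σ hσ => swaps_out m σ hσ
    _ = 2 * (m * (m + 1).factorial) + ((cex m).filter (fun σ => σ 1 = 0 ∨ σ 0 = 1)).card := by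
        rw [Finset.sum_add_distrib, Finset.card_filter, Finset.sum_const, card_cex, smul_eq_mul,
          mul_comm 2]
    _ ≤ 2 * (m * (m + 1).factorial) + 2 * (m + 1).factorial := by
        gcongr
        have h2 : (cex m).filter (fun σ => σ 1 = 0 ∨ σ 0 = 1) ⊆
            univ.filter (fun σ : Perm (Fin (m + 2)) => σ 1 = 0)
              ∪ univ.filter (fun σ : Perm (Fin (m + 2)) => σ 0 = 1) := by
          intro σ hσ
          simp only [mem_filter, mem_union, mem_univ, true_and] at hσ ⊢
          exact hσ.2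
        refine (Finset.card_le_card h2).trans ((Finset.card_union_le _ _).trans ?_)
        rw [card_one (n := m + 1) 1 0, card_one (n := m + 1) 0 1]
        omega

/-- The cosets of cells avoiding the row and the column of `t` meet `{σ t = t}` in many points. -/
theorem union_large (m : ℕ) (t : Fin (m + 3)) (Q : Finset (Fin (m + 3) × Fin (m + 3)))
    (hQ : ∀ p ∈ Q, p.1 ≠ t ∧ p.2 ≠ t) :
    Q.card * (m + 1).factorial ≤
      (univ.filter (fun σ : Perm (Fin (m + 3)) => σ t = t ∧ ∃ p ∈ Q, σ p.1 = p.2)).card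
        + Q.card ^ 2 * m.factorial := by
  classical
  induction Q using Finset.induction_on with
  | empty => simp
  | insert q Q hq ih =>
    have ih' := ih (fun p hp => hQ p (Finset.mem_insert_of_mem hp))
    obtain ⟨hq1, hq2⟩ := hQ q (Finset.mem_insert_self _ _)
    rw [Finset.card_insert_of_notMem hq]
    set U := univ.filter (fun σ : Perm (Fin (m + 3)) => σ t = t ∧ ∃ p ∈ Q, σ p.1 = p.2) with hU
    set V := univ.filter (fun σ : Perm (Fin (m + 3)) => σ t = t ∧ σ q.1 = q.2) with hV
    have e : univ.filter (fun σ : Perm (Fin (m + 3)) => σ t = t ∧ ∃ p ∈ insert q Q, σ p.1 = p.2)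
        = U ∪ V := by
      ext σ
      simp only [hU, hV, mem_filter, mem_univ, true_and, mem_union, Finset.mem_insert,
        exists_eq_or_imp]
      constructor
      · rintro ⟨h1, h2 | h2⟩
        · exact Or.inr ⟨h1, h2⟩
        · exact Or.inl ⟨h1, h2⟩
      · rintro (⟨h1, h2⟩ | ⟨h1, h2⟩)
        · exact ⟨h1, Or.inr h2⟩
        · exact ⟨h1, Or.inl h2⟩
    have hVc : V.card = (m + 1).factorial := card_two (n := m + 1) hq1 hq2
    have hUV : (U ∩ V).card ≤ Q.card * m.factorial := by
      have hsub : U ∩ V ⊆ Q.biUnion (fun p =>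
          univ.filter (fun σ : Perm (Fin (m + 3)) => σ t = t ∧ σ p.1 = p.2 ∧ σ q.1 = q.2)) := by
        intro σ hσ
        simp only [hU, hV, mem_inter, mem_filter, mem_univ, true_and, mem_biUnion] at hσ ⊢
        obtain ⟨⟨h1, p, hp, h2⟩, _, h3⟩ := hσ
        exact ⟨p, hp, h1, h2, h3⟩
      refine (Finset.card_le_card hsub).trans ?_
      refine (Finset.card_biUnion_le).trans ?_
      rw [← smul_eq_mul, ← Finset.sum_const]
      refine Finset.sum_le_sum fun p hp => ?_
      obtain ⟨hp1, hp2⟩ := hQ p (Finset.mem_insert_of_mem hp)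
      by_cases hpq : p.1 = q.1
      · have : univ.filter (fun σ : Perm (Fin (m + 3)) => σ t = t ∧ σ p.1 = p.2 ∧ σ q.1 = q.2) = ∅ := by
          rw [Finset.filter_eq_empty_iff]
          rintro σ _ ⟨_, h2, h3⟩
          apply hq
          have : p = q := Prod.ext hpq (by rw [← h2, ← h3, hpq])
          rwa [← this]
        rw [this]; simp
      · exact card_three_le hp1 hq1 hpq
    have h5 := Finset.card_union_add_card_inter U V
    rw [e]
    nlinarith

/-- Every union of `m` cosets is far from the counterexample. -/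
theorem far (m K : ℕ) (P : Finset (Fin (m + 3) × Fin (m + 3))) (hP : 2 * K + 2 ≤ P.card) :
    K * (m + 1).factorial ≤
      (symmDiff (cex (m + 1)) (univ.filter (fun σ : Perm (Fin (m + 3)) => ∃ p ∈ P, σ p.1 = p.2))).card
        + K ^ 2 * m.factorial := by
  classical
  have h01 := zero_ne_one' (m + 1)
  -- cells avoiding `0` or avoiding `1`
  have hcover : P ⊆ (P.filter (fun p => p.1 ≠ 0 ∧ p.2 ≠ 0) ∪ P.filter (fun p => p.1 ≠ 1 ∧ p.2 ≠ 1))
      ∪ {((0 : Fin (m + 3)), (1 : Fin (m + 3))), (1, 0)} := by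
    rintro ⟨i, j⟩ hp
    simp only [mem_union, mem_filter, hp, true_and, Finset.mem_insert, Finset.mem_singleton,
      Prod.mk.injEq]
    by_cases hi0 : i = 0
    · subst hi0
      by_cases hj1 : j = 1
      · subst hj1; simp
      · left; right; exact ⟨h01, hj1⟩
    · by_cases hj0 : j = 0
      · subst hj0
        by_cases hi1 : i = 1
        · subst hi1; simp
        · left; right; exact ⟨hi1, h01⟩
      · left; left; exact ⟨hi0, hj0⟩
  have hcard := Finset.card_le_card hcover
  have h1 := Finset.card_union_le (P.filter (fun p => p.1 ≠ 0 ∧ p.2 ≠ 0)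
    ∪ P.filter (fun p => p.1 ≠ 1 ∧ p.2 ≠ 1)) {((0 : Fin (m + 3)), (1 : Fin (m + 3))), (1, 0)}
  have h2 := Finset.card_union_le (P.filter (fun p => p.1 ≠ 0 ∧ p.2 ≠ 0))
    (P.filter (fun p => p.1 ≠ 1 ∧ p.2 ≠ 1))
  have h3 : ({((0 : Fin (m + 3)), (1 : Fin (m + 3))), (1, 0)} :
      Finset (Fin (m + 3) × Fin (m + 3))).card ≤ 2 := Finset.card_le_two
  obtain ⟨t, ht, hK⟩ : ∃ t : Fin (m + 3), (t = 0 ∨ t = 1) ∧
      K ≤ (P.filter (fun p => p.1 ≠ t ∧ p.2 ≠ t)).card := by
    by_cases h : K ≤ (P.filter (fun p => p.1 ≠ 0 ∧ p.2 ≠ 0)).card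
    · exact ⟨0, Or.inl rfl, h⟩
    · exact ⟨1, Or.inr rfl, by omega⟩
  obtain ⟨Q, hQsub, hQc⟩ := Finset.exists_subset_card_eq hK
  have hQ : ∀ p ∈ Q, p.1 ≠ t ∧ p.2 ≠ t := by
    intro p hp
    have := hQsub hp
    rw [mem_filter] at this
    exact this.2
  have hl := union_large m t Q hQ
  rw [hQc] at hl
  refine hl.trans ?_
  gcongr
  intro σ hσ
  simp only [mem_filter, mem_univ, true_and] at hσ
  obtain ⟨hσt, p, hp, hσp⟩ := hσ
  rw [Finset.mem_symmDiff]
  right
  constructor
  · simp only [mem_filter, mem_univ, true_and]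
    have := hQsub hp
    rw [mem_filter] at this
    exact ⟨p, this.1, hσp⟩
  · rw [mem_cex, not_not]
    unfold Cnd
    rcases ht with h | h
    · subst h; exact Or.inl hσt
    · subst h; exact Or.inr (Or.inl hσt)

end Pool.Agent.Y420
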